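import Pool.Agent.W792.LL.Stm

/-!
# LL-OPR: operators on `ℓ²(ℤ^d)` with continuous complex symbols
(adapted from `Pool.Agent.W196.GK.T1`)
-/

set_option autoImplicit false
set_option linter.all false

namespace Pool.Agent.W918.LL

open MeasureTheory UnitAddTorus Pool.Agent.W792.LL
open scoped ComplexConjugate

noncomputable section

local instance : MeasureSpace UnitAddCircle := ⟨AddCircle.haarAddCircle⟩

local instance : Measure.IsAddHaarMeasure (volume : Measure UnitAddCircle) :=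
  inferInstanceAs (Measure.IsAddHaarMeasure AddCircle.haarAddCircle)

local instance : IsProbabilityMeasure (volume : Measure UnitAddCircle) :=
  inferInstanceAs (IsProbabilityMeasure AddCircle.haarAddCircle)

variable {ι : Type} [Fintype ι]

lemma norm_mul_le' (K : C(UnitAddTorus ι, ℂ)) (f : (Lp ℂ 2 (volume : Measure (UnitAddTorus ι))))
    (t : UnitAddTorus ι) : ‖K t * f t‖ ≤ ‖K‖ * ‖f t‖ := by
  rw [norm_mul]
  gcongr
  exact K.norm_coe_le_norm t

lemma memLp_mul (K : C(UnitAddTorus ι, ℂ)) (f : (Lp ℂ 2 (volume : Measure (UnitAddTorus ι)))) :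
    MemLp (fun t => K t * f t) 2 (volume : Measure (UnitAddTorus ι)) := by
  refine (Lp.memLp f).of_le_mul (c := ‖K‖) ?_ (Filter.Eventually.of_forall (norm_mul_le' K f))
  exact (K.continuous.aestronglyMeasurable).mul (Lp.aestronglyMeasurable f)

/-- Multiplication by `K` on `L²`. -/
def mulL (K : C(UnitAddTorus ι, ℂ)) : (Lp ℂ 2 (volume : Measure (UnitAddTorus ι))) →ₗ[ℂ]
    (Lp ℂ 2 (volume : Measure (UnitAddTorus ι))) where
  toFun f := (memLp_mul K f).toLp _
  map_add' f g := by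
    ext1
    filter_upwards [(memLp_mul K (f + g)).coeFn_toLp, (memLp_mul K f).coeFn_toLp,
      (memLp_mul K g).coeFn_toLp, Lp.coeFn_add f g,
      Lp.coeFn_add ((memLp_mul K f).toLp _) ((memLp_mul K g).toLp _)] with t h1 h2 h3 h4 h5
    rw [h1, h5, Pi.add_apply, h2, h3, h4, Pi.add_apply, mul_add]
  map_smul' c f := by
    ext1
    filter_upwards [(memLp_mul K (c • f)).coeFn_toLp, (memLp_mul K f).coeFn_toLp,
      Lp.coeFn_smul c f, Lp.coeFn_smul c ((memLp_mul K f).toLp _)] with t h1 h2 h3 h4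
    rw [h1, RingHom.id_apply, h4, Pi.smul_apply, h2, h3, Pi.smul_apply, smul_eq_mul, smul_eq_mul]
    ring

lemma mulL_coe (K : C(UnitAddTorus ι, ℂ)) (f : (Lp ℂ 2 (volume : Measure (UnitAddTorus ι)))) :
    mulL K f =ᵐ[volume] fun t => K t * f t := (memLp_mul K f).coeFn_toLp

lemma norm_mulL_le (K : C(UnitAddTorus ι, ℂ))
    (f : (Lp ℂ 2 (volume : Measure (UnitAddTorus ι)))) : ‖mulL K f‖ ≤ ‖K‖ * ‖f‖ := by
  apply Lp.norm_le_mul_norm_of_ae_le_mul
  filter_upwards [mulL_coe K f] with t ht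
  rw [ht]
  exact norm_mul_le' K f t

/-- Multiplication by `K` on `L²`, continuous version. -/
def mulC (K : C(UnitAddTorus ι, ℂ)) : (Lp ℂ 2 (volume : Measure (UnitAddTorus ι))) →L[ℂ]
    (Lp ℂ 2 (volume : Measure (UnitAddTorus ι))) := (mulL K).mkContinuous ‖K‖ (norm_mulL_le K)

lemma mulC_coe (K : C(UnitAddTorus ι, ℂ)) (f : (Lp ℂ 2 (volume : Measure (UnitAddTorus ι)))) :
    mulC K f =ᵐ[volume] fun t => K t * f t := mulL_coe K f

/-- The operator. -/
def opT (K : C(UnitAddTorus ι, ℂ)) : l2 (ι → ℤ) →L[ℂ] l2 (ι → ℤ) :=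
  ((mFourierBasis (d := ι)).repr.toContinuousLinearEquiv : (Lp ℂ 2 (volume : Measure (UnitAddTorus ι))) →L[ℂ] l2 (ι → ℤ)).comp
    ((mulC K).comp ((mFourierBasis (d := ι)).repr.symm.toContinuousLinearEquiv :
      l2 (ι → ℤ) →L[ℂ] (Lp ℂ 2 (volume : Measure (UnitAddTorus ι)))))

lemma opT_apply (K : C(UnitAddTorus ι, ℂ)) (u : l2 (ι → ℤ)) :
    opT K u = (mFourierBasis (d := ι)).repr (mulC K ((mFourierBasis (d := ι)).repr.symm u)) := rfl

lemma opT_hasSum (K : C(UnitAddTorus ι, ℂ)) (u : l2 (ι → ℤ)) (x : ι → ℤ) :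
    HasSum (fun y => mFourierCoeff K (x - y) * u y) (opT K u x) := by
  set g : (Lp ℂ 2 (volume : Measure (UnitAddTorus ι))) := (mFourierBasis (d := ι)).repr.symm u
    with hg
  have hu : ∀ y, u y = mFourierCoeff g y := by
    intro y
    rw [← mFourierBasis_repr, hg, LinearIsometryEquiv.apply_symm_apply]
  set F : C(UnitAddTorus ι, ℂ) :=
    ⟨fun t => conj (K t) * mFourier x t, by fun_prop⟩ with hF
  have hsum := hasSum_prod_mFourierCoeff (F.toLp 2 (volume : Measure (UnitAddTorus ι)) ℂ) g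
  have h1 : opT K u x = ∫ t, conj ((F.toLp 2 (volume : Measure (UnitAddTorus ι)) ℂ) t) * g t := by
    rw [opT_apply, mFourierBasis_repr]
    unfold mFourierCoeff
    apply integral_congr_ae
    filter_upwards [mulC_coe K g, F.coeFn_toLp (p := 2) (𝕜 := ℂ)
      (volume : Measure (UnitAddTorus ι))] with t h2 h3
    rw [h2, h3, mFourier_neg, smul_eq_mul, hF]
    simp only [ContinuousMap.coe_mk, map_mul, Complex.conj_conj]
    ring
  rw [h1]
  have hfun : (fun y => mFourierCoeff K (x - y) * u y) = fun y =>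
      conj (mFourierCoeff (F.toLp 2 (volume : Measure (UnitAddTorus ι)) ℂ) y) *
        mFourierCoeff g y := by
    funext y
    rw [hu y]
    congr 1
    rw [mFourierCoeff_toLp]
    unfold mFourierCoeff
    rw [← integral_conj]
    apply integral_congr_ae
    refine Filter.Eventually.of_forall fun t => ?_
    simp only [hF, ContinuousMap.coe_mk, smul_eq_mul, map_mul, Complex.conj_conj]
    have e1 : mFourier (-(x - y)) t = mFourier y t * conj (mFourier x t) := by
      rw [show -(x - y) = y + -x by abel, mFourier_add, mFourier_neg]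
    have e2 : conj (mFourier (-y) t) = mFourier y t := by
      rw [mFourier_neg, Complex.conj_conj]
    rw [e1, e2]
    ring
  rw [hfun]
  exact hsum

lemma norm_opT_le (K : C(UnitAddTorus ι, ℂ)) : ‖opT K‖ ≤ ‖K‖ := by
  refine ContinuousLinearMap.opNorm_le_bound _ (norm_nonneg _) fun u => ?_
  rw [opT_apply, LinearIsometryEquiv.norm_map]
  refine (norm_mulL_le K _).trans ?_
  rw [LinearIsometryEquiv.norm_map]

lemma opT_mul (K K' : C(UnitAddTorus ι, ℂ)) : opT (K * K') = opT K * opT K' := by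
  refine ContinuousLinearMap.ext fun u => ?_
  rw [ContinuousLinearMap.mul_apply, opT_apply, opT_apply, opT_apply,
    LinearIsometryEquiv.symm_apply_apply]
  congr 1
  ext1
  filter_upwards [mulC_coe (K * K') ((mFourierBasis (d := ι)).repr.symm u),
    mulC_coe K' ((mFourierBasis (d := ι)).repr.symm u),
    mulC_coe K (mulC K' ((mFourierBasis (d := ι)).repr.symm u))] with t h1 h2 h3
  rw [h1, h3, h2, ContinuousMap.mul_apply, mul_assoc]

lemma opT_add (K K' : C(UnitAddTorus ι, ℂ)) : opT (K + K') = opT K + opT K' := by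
  refine ContinuousLinearMap.ext fun u => ?_
  rw [ContinuousLinearMap.add_apply, opT_apply, opT_apply, opT_apply, ← map_add]
  congr 1
  ext1
  filter_upwards [mulC_coe (K + K') ((mFourierBasis (d := ι)).repr.symm u),
    mulC_coe K' ((mFourierBasis (d := ι)).repr.symm u),
    mulC_coe K ((mFourierBasis (d := ι)).repr.symm u),
    Lp.coeFn_add (mulC K ((mFourierBasis (d := ι)).repr.symm u))
      (mulC K' ((mFourierBasis (d := ι)).repr.symm u))] with t h1 h2 h3 h4
  rw [h1, h4, Pi.add_apply, h2, h3, ContinuousMap.add_apply, add_mul]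

lemma opT_smul (a : ℂ) (K : C(UnitAddTorus ι, ℂ)) : opT (a • K) = a • opT K := by
  refine ContinuousLinearMap.ext fun u => ?_
  rw [ContinuousLinearMap.smul_apply, opT_apply, opT_apply, ← map_smul]
  congr 1
  ext1
  filter_upwards [mulC_coe (a • K) ((mFourierBasis (d := ι)).repr.symm u),
    mulC_coe K ((mFourierBasis (d := ι)).repr.symm u),
    Lp.coeFn_smul a (mulC K ((mFourierBasis (d := ι)).repr.symm u))] with t h1 h2 h3
  rw [h1, h3, Pi.smul_apply, h2, ContinuousMap.smul_apply, smul_eq_mul, smul_eq_mul, mul_assoc]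

lemma opT_one : opT (1 : C(UnitAddTorus ι, ℂ)) = 1 := by
  refine ContinuousLinearMap.ext fun u => ?_
  rw [opT_apply, ContinuousLinearMap.one_apply]
  have h : mulC (1 : C(UnitAddTorus ι, ℂ)) ((mFourierBasis (d := ι)).repr.symm u) =
      (mFourierBasis (d := ι)).repr.symm u := by
    ext1
    filter_upwards [mulC_coe (1 : C(UnitAddTorus ι, ℂ))
      ((mFourierBasis (d := ι)).repr.symm u)] with t h1
    rw [h1, ContinuousMap.one_apply, one_mul]
  rw [h, LinearIsometryEquiv.apply_symm_apply]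

lemma opr_eq {d : ℕ} (m : C(UnitAddTorus (Fin d), ℂ)) : opr m = opT m := by
  have h : ∃ T : l2 (Fin d → ℤ) →L[ℂ] l2 (Fin d → ℤ), ∀ u x,
      T u x = ∑' y, UnitAddTorus.mFourierCoeff m (x - y) * u y :=
    ⟨opT m, fun u x => (opT_hasSum m u x).tsum_eq.symm⟩
  unfold opr
  rw [dif_pos h]
  refine ContinuousLinearMap.ext fun u => lp.ext (funext fun x => ?_)
  rw [Classical.choose_spec h u x, (opT_hasSum m u x).tsum_eq]

lemma coeff_le (m : C(UnitAddTorus ι, ℂ)) (x : ι → ℤ) : ‖mFourierCoeff m x‖ ≤ ‖m‖ := by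
  unfold mFourierCoeff
  have h := norm_integral_le_of_norm_le_const (μ := (volume : Measure (UnitAddTorus ι)))
    (f := fun t => mFourier (-x) t • m t) (C := ‖m‖) (Filter.Eventually.of_forall fun t => by
      rw [norm_smul]
      have h1 : ‖mFourier (-x) t‖ ≤ 1 :=
        ((mFourier (-x)).norm_coe_le_norm t).trans (mFourier_norm).le
      calc ‖mFourier (-x) t‖ * ‖m t‖ ≤ 1 * ‖m‖ :=
            mul_le_mul h1 (m.norm_coe_le_norm t) (norm_nonneg _) zero_le_one
        _ = ‖m‖ := one_mul _)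
  simpa using h

lemma coeff_sq (m : C(UnitAddTorus ι, ℂ)) :
    Summable (fun x : ι → ℤ => ‖mFourierCoeff m x‖ ^ 2) ∧
      ∑' x : ι → ℤ, ‖mFourierCoeff m x‖ ^ 2 ≤ ‖m‖ ^ 2 := by
  have h := hasSum_sq_mFourierCoeff (m.toLp 2 (volume : Measure (UnitAddTorus ι)) ℂ)
  simp only [mFourierCoeff_toLp] at h
  refine ⟨h.summable, ?_⟩
  rw [h.tsum_eq]
  have h1 := norm_integral_le_of_norm_le_const (μ := (volume : Measure (UnitAddTorus ι)))
    (f := fun t => ‖(m.toLp 2 (volume : Measure (UnitAddTorus ι)) ℂ) t‖ ^ 2) (C := ‖m‖ ^ 2) (by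
      filter_upwards [m.coeFn_toLp (p := 2) (𝕜 := ℂ) (volume : Measure (UnitAddTorus ι))]
        with t h2
      rw [h2, norm_pow, norm_norm]
      exact pow_le_pow_left₀ (norm_nonneg _) (m.norm_coe_le_norm t) 2)
  refine (le_abs_self _).trans ?_
  simpa using h1

theorem main : Pool.Agent.W792.LL.S_OPR := by
  intro d m m'
  refine ⟨fun u x => ⟨(opT_hasSum m u x).summable, ?_⟩, ?_, ?_, ?_, ?_, ?_, ?_, ?_, ?_⟩
  · rw [opr_eq, (opT_hasSum m u x).tsum_eq]
  · rw [opr_eq]; exact norm_opT_le m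
  · rw [opr_eq, opr_eq, opr_eq, opT_mul]
  · rw [opr_eq, opr_eq, opr_eq, opT_add]
  · intro a
    rw [opr_eq, opr_eq, opT_smul]
  · rw [opr_eq, opT_one]
  · exact coeff_le m
  · exact (coeff_sq m).1
  · exact (coeff_sq m).2

end

end Pool.Agent.W918.LL
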